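import Mathlib

namespace Pool.Agent.Results.MP_293fea_co.NotRegular

/-- The `k`-kernel of a sequence. -/
def kernel {α : Type*} (k : ℕ) (f : ℕ → α) : Set (ℕ → α) :=
  {g | ∃ e r : ℕ, r < k ^ e ∧ g = fun n => f (k ^ e * n + r)}

/-- A sequence is `k`-automatic when its `k`-kernel is finite. -/
def IsAutomatic {α : Type*} (k : ℕ) (f : ℕ → α) : Prop := (kernel k f).Finite

/-- An integer sequence is `k`-regular when its `k`-kernel spans a finitely generated module. -/
def IsRegular (k : ℕ) (f : ℕ → ℤ) : Prop := (Submodule.span ℤ (kernel k f)).FG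

/-- Parikh vector of the factor `x(i) x(i+1) ... x(i+n-1)`. -/
def parikh {m : ℕ} (x : ℕ → Fin m) (i n : ℕ) : Fin m → ℕ :=
  fun c => ((Finset.range n).filter (fun j => x (i + j) = c)).card

/-- Abelian complexity: the number of Parikh vectors of factors of length `n`. -/
noncomputable def abelianComplexity {m : ℕ} (x : ℕ → Fin m) (n : ℕ) : ℕ :=
  Set.ncard {v : Fin m → ℕ | ∃ i : ℕ, v = parikh x i n}

/-! ### The sequence -/

/-- weight of a base-5 digit -/
def wt (r : ℕ) : ℤ := if r = 1 then 1 else if r = 3 then -1 else 0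

/-- sum of the weights of the base-5 digits -/
def W (n : ℕ) : ℤ :=
  if _h : n = 0 then 0 else W (n / 5) + wt (n % 5)
termination_by n
decreasing_by exact Nat.div_lt_self (Nat.pos_of_ne_zero _h) (by norm_num)

/-- `-1` if the leading base-5 digit is `2`, and `1` otherwise -/
def sg (n : ℕ) : ℤ :=
  if _h : n < 5 then (if n = 2 then -1 else 1) else sg (n / 5)
termination_by n
decreasing_by exact Nat.div_lt_self (by omega) (by norm_num)

def D (n : ℕ) : ℤ := sg n * W n

/-- the binary sequence -/
def x (n : ℕ) : Fin 2 := if D (n + 1) - D n = 1 then 1 else 0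

theorem W_zero : W 0 = 0 := by rw [W]; simp

theorem W_step (m r : ℕ) (hr : r < 5) : W (5 * m + r) = W m + wt r := by
  rcases Nat.eq_zero_or_pos (5 * m + r) with h | h
  · have hm : m = 0 := by omega
    have hr0 : r = 0 := by omega
    subst hm; subst hr0
    simp [W_zero, wt]
  · rw [W, dif_neg (by omega)]
    have h1 : (5 * m + r) / 5 = m := by omega
    have h2 : (5 * m + r) % 5 = r := by omega
    rw [h1, h2]

theorem sg_step (m r : ℕ) (hm : 1 ≤ m) (hr : r < 5) : sg (5 * m + r) = sg m := by
  rw [sg, dif_neg (by omega)]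
  have h1 : (5 * m + r) / 5 = m := by omega
  rw [h1]

theorem sg_small (n : ℕ) (h : n < 5) : sg n = if n = 2 then -1 else 1 := by
  rw [sg, dif_pos h]

theorem W_small (r : ℕ) (hr : r < 5) : W r = wt r := by
  have := W_step 0 r hr
  simpa [W_zero] using this

theorem sg_cases (n : ℕ) : sg n = 1 ∨ sg n = -1 := by
  induction n using Nat.strong_induction_on with
  | _ n ih =>
    by_cases h : n < 5
    · rw [sg_small n h]; split_ifs <;> simp
    · have : n = 5 * (n / 5) + n % 5 := by omega
      rw [this, sg_step _ _ (by omega) (by omega)]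
      exact ih _ (by omega)

theorem D_mul5 (m : ℕ) : D (5 * m) = D m := by
  rcases Nat.eq_zero_or_pos m with h | h
  · subst h; rfl
  · have h1 := W_step m 0 (by norm_num)
    have h2 := sg_step m 0 h (by norm_num)
    simp only [add_zero] at h1 h2
    unfold D
    rw [h1, h2]; simp [wt]

theorem D_mul5_four (m : ℕ) : D (5 * m + 4) = D m := by
  rcases Nat.eq_zero_or_pos m with h | h
  · subst h
    have h1 := W_step 0 4 (by norm_num)
    unfold D
    rw [h1, W_zero]; simp [wt]
  · unfold D
    rw [W_step m 4 (by norm_num), sg_step m 4 h (by norm_num)]; simp [wt]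

/-- differences -/
theorem diff_step (m r : ℕ) (hm : 1 ≤ m) (hr : r < 4) :
    D (5 * m + r + 1) - D (5 * m + r) = sg m * (wt (r + 1) - wt r) := by
  unfold D
  rw [show 5 * m + r + 1 = 5 * m + (r + 1) by ring, W_step m r (by omega),
    W_step m (r + 1) (by omega), sg_step m r hm (by omega), sg_step m (r + 1) hm (by omega)]
  ring

theorem diff_four (m : ℕ) : D (5 * m + 4 + 1) - D (5 * m + 4) = D (m + 1) - D m := by
  rw [D_mul5_four, show 5 * m + 4 + 1 = 5 * (m + 1) by ring, D_mul5]

theorem diff_pm (n : ℕ) : D (n + 1) - D n = 1 ∨ D (n + 1) - D n = -1 := by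
  induction n using Nat.strong_induction_on with
  | _ n ih =>
    have hn : n = 5 * (n / 5) + n % 5 := by omega
    by_cases h4 : n % 5 = 4
    · rw [h4] at hn
      rw [hn, diff_four]
      exact ih _ (by omega)
    · by_cases h : n / 5 = 0
      · have hn4 : n < 4 := by omega
        unfold D
        rw [W_small n (by omega), W_small (n + 1) (by omega), sg_small n (by omega),
          sg_small (n + 1) (by omega)]
        interval_cases n <;> simp [wt]
      · rw [hn, diff_step _ _ (by omega) (by omega)]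
        have hr : n % 5 < 4 := by omega
        generalize n % 5 = r at hr
        rcases sg_cases (n / 5) with h | h <;> rw [h] <;> interval_cases r <;> simp [wt]

theorem x_eq_one_iff (n : ℕ) : x n = 1 ↔ D (n + 1) - D n = 1 := by
  unfold x
  split_ifs with h <;> simp [h]

theorem x_eq_zero_iff (n : ℕ) : x n = 0 ↔ D (n + 1) - D n = -1 := by
  unfold x
  rcases diff_pm n with h | h <;> simp [h]

/-! ### `x` is 5-automatic -/

/-- the value of `x (5 m + q)` in terms of the sign -/
def U (q : ℕ) (b : Bool) : Fin 2 :=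
  if (if b then 1 else -1) * (wt (q + 1) - wt q) = 1 then 1 else 0

def sb (n : ℕ) : Bool := decide (sg n = 1)

theorem sg_eq_sb (n : ℕ) : sg n = if sb n then 1 else -1 := by
  unfold sb
  rcases sg_cases n with h | h <;> simp [h]

theorem x_step (m q : ℕ) (hm : 1 ≤ m) (hq : q < 4) : x (5 * m + q) = U q (sb m) := by
  unfold x U
  rw [diff_step m q hm hq, sg_eq_sb]

theorem x_four (m : ℕ) : x (5 * m + 4) = x m := by
  unfold x
  rw [diff_four]

theorem kernel_form (e : ℕ) : ∀ r < 5 ^ e, (∀ n, 1 ≤ n → sg (5 ^ e * n + r) = sg n) ∧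
    ∃ h : Bool → Fin 2 → Fin 2, ∀ n, 1 ≤ n → x (5 ^ e * n + r) = h (sb n) (x n) := by
  induction e with
  | zero =>
    intro r hr
    have hr0 : r = 0 := by simpa using hr
    subst hr0
    refine ⟨fun n _ => by simp, fun _ y => y, fun n _ => by simp⟩
  | succ e ih =>
    intro r hr
    have hr' : r / 5 < 5 ^ e := by
      rw [Nat.div_lt_iff_lt_mul (by norm_num)]
      rw [pow_succ] at hr; exact hr
    obtain ⟨h1, h, h2⟩ := ih (r / 5) hr'
    have key : ∀ n, 5 ^ (e + 1) * n + r = 5 * (5 ^ e * n + r / 5) + r % 5 := by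
      intro n
      have : r = 5 * (r / 5) + r % 5 := by omega
      rw [pow_succ]
      calc 5 ^ e * 5 * n + r = 5 ^ e * 5 * n + (5 * (r / 5) + r % 5) := by rw [← this]
        _ = _ := by ring
    have hpos : ∀ n, 1 ≤ n → 1 ≤ 5 ^ e * n + r / 5 := by
      intro n hn
      have : 1 ≤ 5 ^ e * n := Nat.mul_pos (by positivity) hn
      omega
    refine ⟨fun n hn => ?_, if r % 5 = 4 then h else fun b _ => U (r % 5) b, fun n hn => ?_⟩
    · rw [key, sg_step _ _ (hpos n hn) (by omega), h1 n hn]
    · rw [key]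
      split_ifs with h4
      · rw [h4, x_four, h2 n hn]
      · rw [x_step _ _ (hpos n hn) (by omega)]
        have : sb (5 ^ e * n + r / 5) = sb n := by unfold sb; rw [h1 n hn]
        rw [this]

theorem x_automatic : IsAutomatic 5 x := by
  unfold IsAutomatic
  have hfin : (Set.range (fun p : (Bool → Fin 2 → Fin 2) × Fin 2 =>
      (fun n : ℕ => if n = 0 then p.2 else p.1 (sb n) (x n)))).Finite := Set.finite_range _
  refine hfin.subset ?_
  rintro g ⟨e, r, hr, rfl⟩
  obtain ⟨-, h, h2⟩ := kernel_form e r hr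
  refine ⟨(h, x (5 ^ e * 0 + r)), ?_⟩
  funext n
  by_cases hn : n = 0
  · subst hn; simp
  · simp only [hn, if_false]
    exact (h2 n (Nat.pos_of_ne_zero hn)).symm

/-! ### Abelian complexity and window sums -/

/-- the set of window sums -/
def diffs (n : ℕ) : Set ℤ := {z | ∃ i : ℕ, z = D (i + n) - D i}

theorem count_diff (i n : ℕ) : ((parikh x i n 1 : ℕ) : ℤ) - (parikh x i n 0 : ℕ) = D (i + n) - D i := by
  induction n with
  | zero => simp [parikh]
  | succ n ih =>
    unfold parikh at ih ⊢
    rw [Finset.range_add_one, Finset.filter_insert, Finset.filter_insert]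
    rcases diff_pm (i + n) with h | h
    · have h1 : x (i + n) = 1 := (x_eq_one_iff _).2 h
      have h0 : ¬ (x (i + n) = 0) := by rw [h1]; decide
      rw [if_pos h1, if_neg h0, Finset.card_insert_of_notMem (by simp)]
      push_cast
      rw [← add_assoc]
      linarith
    · have h1 : x (i + n) = 0 := (x_eq_zero_iff _).2 h
      have h0 : ¬ (x (i + n) = 1) := by rw [h1]; decide
      rw [if_pos h1, if_neg h0, Finset.card_insert_of_notMem (by simp)]
      push_cast
      rw [← add_assoc]
      linarith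

theorem count_sum (i n : ℕ) : parikh x i n 1 + parikh x i n 0 = n := by
  unfold parikh
  rw [← Finset.card_union_of_disjoint]
  · rw [← Finset.filter_or]
    have : (Finset.range n).filter (fun j => x (i + j) = 1 ∨ x (i + j) = 0) = Finset.range n := by
      apply Finset.filter_true_of_mem
      intro j _
      have : ∀ y : Fin 2, y = 1 ∨ y = 0 := by decide
      exact this _
    rw [this, Finset.card_range]
  · rw [Finset.disjoint_filter]
    intro j _ h1 h0
    rw [h1] at h0
    exact absurd h0 (by decide)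

theorem complexity_eq (n : ℕ) : abelianComplexity x n = (diffs n).ncard := by
  unfold abelianComplexity
  have himg : diffs n = (fun v : Fin 2 → ℕ => ((v 1 : ℕ) : ℤ) - (v 0 : ℕ)) ''
      {v : Fin 2 → ℕ | ∃ i : ℕ, v = parikh x i n} := by
    ext z
    constructor
    · rintro ⟨i, rfl⟩
      exact ⟨parikh x i n, ⟨i, rfl⟩, count_diff i n⟩
    · rintro ⟨v, ⟨i, rfl⟩, rfl⟩
      exact ⟨i, count_diff i n⟩
  rw [himg, Set.InjOn.ncard_image]
  rintro v ⟨i, rfl⟩ w ⟨j, rfl⟩ h
  simp only at h
  have h1 := count_sum i n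
  have h2 := count_sum j n
  have h3 : parikh x i n 1 = parikh x j n 1 := by omega
  have h4 : parikh x i n 0 = parikh x j n 0 := by omega
  funext c
  have hc : ∀ y : Fin 2, y = 0 ∨ y = 1 := by decide
  rcases hc c with rfl | rfl
  · exact h4
  · exact h3

theorem diffs_bound (i n : ℕ) : |D (i + n) - D i| ≤ n := by
  induction n with
  | zero => simp
  | succ n ih =>
    have h : D (i + (n + 1)) - D i = (D (i + n + 1) - D (i + n)) + (D (i + n) - D i) := by
      rw [← add_assoc]; ring
    rw [h]
    have h2 : |D (i + n + 1) - D (i + n)| ≤ 1 := by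
      rcases diff_pm (i + n) with h | h <;> rw [h] <;> norm_num
    calc _ ≤ |D (i + n + 1) - D (i + n)| + |D (i + n) - D i| := abs_add_le _ _
      _ ≤ ((n + 1 : ℕ) : ℤ) := by push_cast; linarith

theorem diffs_finite (n : ℕ) : (diffs n).Finite := by
  apply (Set.finite_Icc (-(n : ℤ)) n).subset
  rintro z ⟨i, rfl⟩
  exact abs_le.1 (diffs_bound i n)

theorem diffs_nonempty (n : ℕ) : (diffs n).Nonempty := ⟨_, 0, rfl⟩

theorem D_parity (n : ℕ) : (D n - n) % 2 = 0 := by
  induction n with
  | zero => simp [D, W_zero]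
  | succ n ih =>
    push_cast
    rcases diff_pm n with h | h <;> omega

/-- discrete intermediate value property -/
theorem diffs_ivt {n : ℕ} {z : ℤ} {p q : ℕ} (hz : (z - n) % 2 = 0) (hp : D (p + n) - D p ≤ z)
    (hq : z ≤ D (q + n) - D q) : z ∈ diffs n := by
  by_contra hno
  have hne : ∀ i, D (i + n) - D i ≠ z := fun i h => hno ⟨i, h.symm⟩
  have hpar : ∀ i, (D (i + n) - D i - z) % 2 = 0 := by
    intro i
    have h1 := D_parity (i + n)
    have h2 := D_parity i
    push_cast at h1
    omega
  have hstep : ∀ i, (D (i + n) - D i < z ↔ D (i + 1 + n) - D (i + 1) < z) := by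
    intro i
    have h1 := diff_pm (i + n)
    have h2 := diff_pm i
    have h3 := hne i
    have h4 := hne (i + 1)
    have h5 := hpar i
    have h6 := hpar (i + 1)
    rw [show i + 1 + n = i + n + 1 by ring] at h4 h6 ⊢
    omega
  have hall : ∀ i, (D (0 + n) - D 0 < z ↔ D (i + n) - D i < z) := by
    intro i
    induction i with
    | zero => rfl
    | succ i ih => exact ih.trans (hstep i)
  have h1 := (hall p).2 (lt_of_le_of_ne hp (hne p))
  have h2 := (hall q).1 h1
  omega

theorem diffs_mono (n : ℕ) : diffs n ⊆ diffs (5 * n) := by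
  rintro z ⟨i, rfl⟩
  refine ⟨5 * i, ?_⟩
  rw [← mul_add, D_mul5, D_mul5]

/-! ### Blocks of digits -/

/-- `5^a m + l` with `l < 5^a` -/
theorem block (a : ℕ) : ∀ m l, l < 5 ^ a → W (5 ^ a * m + l) = W m + W l ∧
    (1 ≤ m → sg (5 ^ a * m + l) = sg m) := by
  induction a with
  | zero =>
    intro m l hl
    have : l = 0 := by simpa using hl
    subst this
    simp [W_zero]
  | succ a ih =>
    intro m l hl
    have hl' : l / 5 < 5 ^ a := by
      rw [Nat.div_lt_iff_lt_mul (by norm_num)]
      rw [pow_succ] at hl; exact hl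
    obtain ⟨h1, h2⟩ := ih m (l / 5) hl'
    have hl5 : l = 5 * (l / 5) + l % 5 := by omega
    have key : 5 ^ (a + 1) * m + l = 5 * (5 ^ a * m + l / 5) + l % 5 := by
      rw [pow_succ]
      calc 5 ^ a * 5 * m + l = 5 ^ a * 5 * m + (5 * (l / 5) + l % 5) := by rw [← hl5]
        _ = _ := by ring
    constructor
    · rw [key, W_step _ _ (by omega), h1]
      conv_rhs => rw [hl5, W_step _ _ (Nat.mod_lt _ (by norm_num))]
      ring
    · intro hm
      have hpos : 1 ≤ 5 ^ a * m + l / 5 := by
        have : 1 ≤ 5 ^ a * m := Nat.mul_pos (by positivity) hm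
        omega
      rw [key, sg_step _ _ hpos (by omega), h2 hm]

theorem wt_bound (r : ℕ) : |wt r| ≤ 1 := by
  unfold wt; split_ifs <;> norm_num

theorem W_bound (a : ℕ) : ∀ l, l < 5 ^ a → |W l| ≤ a := by
  induction a with
  | zero =>
    intro l hl
    have : l = 0 := by simpa using hl
    subst this
    simp [W_zero]
  | succ a ih =>
    intro l hl
    have hl' : l / 5 < 5 ^ a := by
      rw [Nat.div_lt_iff_lt_mul (by norm_num)]
      rw [pow_succ] at hl; exact hl
    have hl5 : l = 5 * (l / 5) + l % 5 := by omega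
    rw [hl5, W_step _ _ (Nat.mod_lt _ (by norm_num))]
    calc _ ≤ |W (l / 5)| + |wt (l % 5)| := abs_add_le _ _
      _ ≤ ((a + 1 : ℕ) : ℤ) := by
        push_cast
        have := ih _ hl'
        have := wt_bound (l % 5)
        linarith

/-- repunits in base 5 -/
def R : ℕ → ℕ
  | 0 => 0
  | b + 1 => 5 * R b + 1

theorem four_R (b : ℕ) : 4 * R b + 1 = 5 ^ b := by
  induction b with
  | zero => rfl
  | succ b ih => rw [pow_succ, ← ih, R]; ring

theorem R_lt (b : ℕ) : R b < 5 ^ b := by have := four_R b; omega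

/-- runs of a digit -/
theorem run (h d b : ℕ) (hd : d < 5) : W (5 ^ b * h + d * R b) = W h + b * wt d ∧
    (1 ≤ h → sg (5 ^ b * h + d * R b) = sg h) := by
  induction b with
  | zero => simp [R]
  | succ b ih =>
    have key : 5 ^ (b + 1) * h + d * R (b + 1) = 5 * (5 ^ b * h + d * R b) + d := by
      rw [R, pow_succ]; ring
    rw [key]
    constructor
    · rw [W_step _ _ hd, ih.1]; push_cast; ring
    · intro hh
      have hpos : 1 ≤ 5 ^ b * h + d * R b := by
        have : 1 ≤ 5 ^ b * h := Nat.mul_pos (by positivity) hh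
        omega
      rw [sg_step _ _ hpos hd, ih.2 hh]

/-- the numbers with `b` digits equal to `2` -/
def T (b : ℕ) : ℕ := 2 * R b

theorem T_succ (b : ℕ) : T (b + 1) = 5 * T b + 2 := by unfold T; rw [R]; ring

theorem upper (h : ℕ) : (h = 0 ∨ sg h ≠ sg (h + 1)) → |W h + W (h + 1)| ≤ 1 := by
  induction h using Nat.strong_induction_on with
  | _ h ih =>
    intro hh
    by_cases h5 : h < 4
    · rw [W_small h (by omega), W_small (h + 1) (by omega)]
      interval_cases h <;> simp [wt]
    · have hn : h = 5 * (h / 5) + h % 5 := by omega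
      by_cases h4 : h % 5 = 4
      · have e1 : h = 5 * (h / 5) + 4 := by omega
        have e2 : h + 1 = 5 * (h / 5 + 1) + 0 := by omega
        have w1 : W h = W (h / 5) := by rw [e1, W_step _ _ (by norm_num), ← e1]; simp [wt]
        have w2 : W (h + 1) = W (h / 5 + 1) := by
          rw [e2, W_step _ _ (by norm_num)]; simp [wt]
        rw [w1, w2]
        apply ih _ (by omega)
        by_cases h0 : h / 5 = 0
        · exact Or.inl h0
        · right
          have s1 : sg h = sg (h / 5) := by
            conv_lhs => rw [e1]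
            exact sg_step _ _ (by omega) (by norm_num)
          have s2 : sg (h + 1) = sg (h / 5 + 1) := by
            rw [e2]; exact sg_step _ _ (by omega) (by norm_num)
          rcases hh with hh | hh
          · omega
          · rwa [s1, s2] at hh
      · exfalso
        rcases hh with hh | hh
        · omega
        · apply hh
          have e2 : h + 1 = 5 * (h / 5) + (h % 5 + 1) := by omega
          have s1 : sg h = sg (h / 5) := by
            conv_lhs => rw [hn]
            exact sg_step _ _ (by omega) (by omega)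
          rw [s1, e2, sg_step _ _ (by omega) (by omega)]

theorem mixed (b : ℕ) : ∀ i c, c ≤ 1 → (i = 0 ∨ sg i ≠ sg (i + T b + c)) →
    |W i + W (i + T b + c)| ≤ b + 1 := by
  induction b with
  | zero =>
    intro i c hc hi
    have hT : T 0 = 0 := rfl
    rw [hT] at hi ⊢
    simp only [add_zero] at hi ⊢
    rcases Nat.le_one_iff_eq_zero_or_eq_one.1 hc with rfl | rfl
    · rcases hi with rfl | hi
      · simp [W_zero]
      · exact absurd rfl hi
    · simpa using upper i hi
  | succ b ih =>
    intro i c hc hi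
    have hi5 : i = 5 * (i / 5) + i % 5 := by omega
    set m := i / 5 with hm
    set r := i % 5 with hr
    have hr5 : r < 5 := by omega
    obtain ⟨c', r', hc', hr', hcr⟩ : ∃ c' r', c' ≤ 1 ∧ r' < 5 ∧ r + 2 + c = 5 * c' + r' :=
      ⟨(r + 2 + c) / 5, (r + 2 + c) % 5, by omega, by omega, by omega⟩
    have e : i + T (b + 1) + c = 5 * (m + T b + c') + r' := by rw [T_succ]; omega
    have hw : |wt r + wt r'| ≤ 1 := by
      interval_cases r <;> interval_cases c <;> interval_cases c' <;>
        first
          | omega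
          | (have : r' = 0 ∨ r' = 1 ∨ r' = 2 ∨ r' = 3 ∨ r' = 4 := by omega
             rcases this with rfl | rfl | rfl | rfl | rfl <;> first | omega | simp [wt])
    have hcond : m = 0 ∨ sg m ≠ sg (m + T b + c') := by
      by_cases hm0 : m = 0
      · exact Or.inl hm0
      · right
        rcases hi with hi | hi
        · omega
        · rwa [hi5, ← hi5, e, sg_step _ _ (by omega) hr', hi5, sg_step _ _ (by omega) hr5] at hi
    have := ih m c' hc' hcond
    rw [e, W_step _ _ hr']
    have hWi : W i = W m + wt r := by rw [hi5, W_step _ _ hr5]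
    rw [hWi]
    calc |W m + wt r + (W (m + T b + c') + wt r')|
        = |(W m + W (m + T b + c')) + (wt r + wt r')| := by congr 1; ring
      _ ≤ |W m + W (m + T b + c')| + |wt r + wt r'| := abs_add_le _ _
      _ ≤ ((b + 1 : ℕ) : ℤ) + 1 := by push_cast; linarith

/-! ### The plateau -/

theorem T_even (b : ℕ) : ((T b : ℕ) : ℤ) % 2 = 0 := by unfold T; push_cast; omega

theorem max_ex (b : ℕ) (hb : 1 ≤ b) : ∃ q, D (q + T b) - D q = 2 * b := by
  obtain ⟨c, rfl⟩ : ∃ c, b = c + 1 := ⟨b - 1, by omega⟩
  refine ⟨5 ^ (c + 1) * 3 + 3 * R (c + 1), ?_⟩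
  have h1 := run 3 3 (c + 1) (by norm_num)
  have h2 := run 4 1 c (by norm_num)
  have e : 5 ^ (c + 1) * 3 + 3 * R (c + 1) + T (c + 1) = 5 * (5 ^ c * 4 + 1 * R c) := by
    have h3 := four_R c
    unfold T
    rw [R, pow_succ]
    omega
  rw [e, D_mul5]
  unfold D
  rw [h1.1, h1.2 (by norm_num), h2.1, h2.2 (by norm_num), sg_small 3 (by norm_num),
    sg_small 4 (by norm_num), W_small 3 (by norm_num), W_small 4 (by norm_num)]
  simp [wt]
  ring

theorem min_ex (b : ℕ) : ∃ p, D (p + T b) - D p = -(2 * b) := by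
  refine ⟨5 ^ b * 4 + 1 * R b, ?_⟩
  have h1 := run 4 1 b (by norm_num)
  have h2 := run 4 3 b (by norm_num)
  have e : 5 ^ b * 4 + 1 * R b + T b = 5 ^ b * 4 + 3 * R b := by unfold T; ring
  rw [e]
  unfold D
  rw [h1.1, h1.2 (by norm_num), h2.1, h2.2 (by norm_num), sg_small 4 (by norm_num),
    W_small 4 (by norm_num)]
  simp [wt]
  ring

theorem plateau (a b : ℕ) (hb : 1 ≤ b) (hab : 2 * a + 1 ≤ b) : diffs (5 ^ a * T b) = diffs (T b) := by
  apply Set.Subset.antisymm
  · rintro z ⟨i, rfl⟩
    set m := i / 5 ^ a with hm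
    set l := i % 5 ^ a with hl
    have hpa : 0 < 5 ^ a := by positivity
    have hi : i = 5 ^ a * m + l := by rw [hm, hl]; exact (Nat.div_add_mod i (5 ^ a)).symm
    have hla : l < 5 ^ a := Nat.mod_lt _ hpa
    have hlW := W_bound a l hla
    have e : i + 5 ^ a * T b = 5 ^ a * (m + T b) + l := by rw [hi]; ring
    have hTpos : 1 ≤ T b := by
      unfold T
      have := four_R b
      have h5 : 5 ≤ 5 ^ b := by
        calc 5 = 5 ^ 1 := by norm_num
          _ ≤ 5 ^ b := Nat.pow_le_pow_right (by norm_num) hb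
      omega
    obtain ⟨w1, s1⟩ := block a (m + T b) l hla
    obtain ⟨w2, s2⟩ := block a m l hla
    have s1' := s1 (le_trans hTpos (Nat.le_add_left _ _))
    have small : |D (i + 5 ^ a * T b) - D i| ≤ 2 * b → D (i + 5 ^ a * T b) - D i ∈ diffs (T b) := by
      intro habs
      obtain ⟨p, hp⟩ := min_ex b
      obtain ⟨q, hq⟩ := max_ex b hb
      obtain ⟨h1, h2⟩ := abs_le.1 habs
      refine diffs_ivt (p := p) (q := q) ?_ (by omega) (by omega)
      have p1 := D_parity (i + 5 ^ a * T b)
      have p2 := D_parity i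
      have p3 := T_even b
      push_cast at p1
      have p4 : ((5 : ℤ) ^ a * (T b : ℤ)) % 2 = 0 := by
        rw [Int.mul_emod, p3]; simp
      omega
    have hDi : D i = sg i * (W m + W l) := by
      unfold D; rw [hi, w2]
    have hDn : D (i + 5 ^ a * T b) = sg (m + T b) * (W (m + T b) + W l) := by
      unfold D; rw [e, w1, s1']
    rcases Nat.eq_zero_or_pos m with h0 | hpos
    · apply small
      have hWT : W (T b) = 0 := by
        have := (run 0 2 b (by norm_num)).1
        simpa [W_zero, wt, T] using this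
      rw [hDn, hDi, h0, W_zero, zero_add, hWT]
      have e1 : |sg (T b) * (0 + W l) - sg i * (0 + W l)| ≤ |W l| + |W l| := by
        rcases sg_cases (T b) with h | h <;> rcases sg_cases i with h' | h' <;> rw [h, h'] <;>
          rw [abs_le] <;> constructor <;> 
          nlinarith [neg_abs_le (W l), le_abs_self (W l), abs_nonneg (W l)]
      refine e1.trans ?_
      have : (a : ℤ) ≤ b := by exact_mod_cast (by omega : a ≤ b)
      linarith
    · have s2' : sg i = sg m := by rw [hi]; exact s2 hpos
      by_cases hs : sg m = sg (m + T b)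
      · refine ⟨m, ?_⟩
        rw [hDn, hDi, s2']
        unfold D
        rw [hs]; ring
      · apply small
        have hmix := mixed b m 0 (by norm_num) (Or.inr (by simpa using hs))
        simp only [add_zero] at hmix
        rw [hDn, hDi, s2']
        have e1 : |sg (m + T b) * (W (m + T b) + W l) - sg m * (W m + W l)| =
            |(W m + W (m + T b)) + 2 * W l| := by
          rcases sg_cases (m + T b) with h | h <;> rcases sg_cases m with h' | h'
          · exact absurd (h'.trans h.symm) hs
          · rw [h, h']; congr 1; ring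
          · rw [h, h', ← abs_neg]; congr 1; ring
          · exact absurd (h'.trans h.symm) hs
        rw [e1]
        refine (abs_add_le _ _).trans ?_
        rw [abs_mul]
        have : (2 * a + 1 : ℤ) ≤ b := by exact_mod_cast hab
        norm_num
        linarith
  · induction a with
    | zero => simp
    | succ a ih =>
      refine (ih (by omega)).trans ?_
      have := diffs_mono (5 ^ a * T b)
      rw [show 5 ^ (a + 1) * T b = 5 * (5 ^ a * T b) by rw [pow_succ]; ring]
      exact this

theorem diffs_chain (a n : ℕ) : diffs n ⊆ diffs (5 ^ a * n) := by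
  induction a with
  | zero => simp
  | succ a ih =>
    refine ih.trans ?_
    rw [show 5 ^ (a + 1) * n = 5 * (5 ^ a * n) by rw [pow_succ]; ring]
    exact diffs_mono _

theorem low_ex (a b : ℕ) (hb : 1 ≤ b) : (-(2 * a + 2) : ℤ) ∈ diffs (5 ^ a * T b) := by
  obtain ⟨c, rfl⟩ : ∃ c, b = c + 1 := ⟨b - 1, by omega⟩
  refine ⟨5 ^ a * (5 ^ (c + 1) * 1 + 4 * R (c + 1)) + R a, ?_⟩
  have e : 5 ^ a * (5 ^ (c + 1) * 1 + 4 * R (c + 1)) + R a + 5 ^ a * T (c + 1) =
      5 ^ a * (5 * (5 ^ c * 2 + 2 * R c) + 1) + R a := by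
    have h3 := four_R c
    have : 5 ^ (c + 1) * 1 + 4 * R (c + 1) + T (c + 1) = 5 * (5 ^ c * 2 + 2 * R c) + 1 := by
      unfold T
      rw [R, pow_succ]
      omega
    rw [← this]; ring
  rw [e]
  obtain ⟨w1, s1⟩ := block a (5 * (5 ^ c * 2 + 2 * R c) + 1) (R a) (R_lt a)
  obtain ⟨w2, s2⟩ := block a (5 ^ (c + 1) * 1 + 4 * R (c + 1)) (R a) (R_lt a)
  have hR : W (R a) = a := by
    have := (run 0 1 a (by norm_num)).1
    simpa [W_zero, wt] using this
  obtain ⟨w3, s3⟩ := run 2 2 c (by norm_num)
  obtain ⟨w4, s4⟩ := run 1 4 (c + 1) (by norm_num)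
  have hp : 1 ≤ 5 ^ c * 2 + 2 * R c := by
    have : 1 ≤ 5 ^ c := Nat.one_le_pow _ _ (by norm_num)
    omega
  have hp2 : 1 ≤ 5 ^ (c + 1) * 1 + 4 * R (c + 1) := by
    have : 1 ≤ 5 ^ (c + 1) := Nat.one_le_pow _ _ (by norm_num)
    omega
  unfold D
  rw [w1, s1 (by omega), w2, s2 hp2, W_step _ _ (by norm_num), sg_step _ _ hp (by norm_num), w3,
    s3 (by norm_num), w4, s4 (by norm_num), hR, sg_small 1 (by norm_num), sg_small 2 (by norm_num),
    W_small 1 (by norm_num), W_small 2 (by norm_num)]
  simp [wt]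
  ring

/-! ### Non-regularity -/

theorem exists_recurrence (f : ℕ → ℤ) (hf : IsRegular 5 f) :
    ∃ (d : ℕ) (c : ℕ → ℤ), ∀ n, f (5 ^ d * n) = ∑ i ∈ Finset.range d, c i * f (5 ^ i * n) := by
  set M := Submodule.span ℤ (kernel 5 f) with hM
  have hfin : Module.Finite ℤ M := Module.Finite.iff_fg.2 hf
  let S : (ℕ → ℤ) →ₗ[ℤ] (ℕ → ℤ) := LinearMap.funLeft ℤ ℤ (fun n => 5 * n)
  have hS : ∀ g ∈ M, S g ∈ M := by
    have : M ≤ M.comap S := by
      rw [hM, Submodule.span_le]
      rintro g ⟨e, r, hr, rfl⟩
      apply Submodule.subset_span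
      refine ⟨e + 1, r, lt_of_lt_of_le hr (Nat.pow_le_pow_right (by norm_num) (by omega)), ?_⟩
      funext n
      simp only [S, LinearMap.funLeft_apply]
      congr 1
      rw [pow_succ]; ring
    exact this
  let S' : M →ₗ[ℤ] M := S.restrict hS
  have hfM : f ∈ M := Submodule.subset_span ⟨0, 0, by norm_num, by funext n; simp⟩
  have hpow : ∀ i n, ((S' ^ i) ⟨f, hfM⟩ : M).1 n = f (5 ^ i * n) := by
    intro i
    induction i with
    | zero => intro n; simp
    | succ i ih =>
      intro n
      rw [pow_succ', Module.End.mul_apply]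
      have : (S' ((S' ^ i) ⟨f, hfM⟩)).1 = S ((S' ^ i) ⟨f, hfM⟩).1 := rfl
      rw [this]
      show ((S' ^ i) ⟨f, hfM⟩).1 (5 * n) = _
      rw [ih, pow_succ]
      congr 1; ring
  obtain ⟨p, hp, hp0⟩ := (Algebra.IsIntegral.isIntegral (R := ℤ) S')
  refine ⟨p.natDegree, fun i => - p.coeff i, fun n => ?_⟩
  have h0 : Polynomial.aeval S' p = 0 := hp0
  rw [Polynomial.aeval_eq_sum_range, Finset.sum_range_succ] at h0
  have h1 := congrArg (fun L : M →ₗ[ℤ] M => (L ⟨f, hfM⟩).1 n) h0
  simp only [LinearMap.add_apply, LinearMap.sum_apply, LinearMap.smul_apply, hp.coeff_natDegree,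
    one_smul, LinearMap.zero_apply, Submodule.coe_add, Submodule.coe_sum, Submodule.coe_smul,
    Pi.add_apply, Finset.sum_apply, Pi.smul_apply, hpow, Submodule.coe_zero, Pi.zero_apply,
    smul_eq_mul] at h1
  simp only [neg_mul, Finset.sum_neg_distrib]
  linarith

theorem result : ∃ x : ℕ → Fin 2, IsAutomatic 5 x ∧
    ¬ IsRegular 5 (fun n => ((abelianComplexity x n : ℕ) : ℤ)) := by
  refine ⟨x, x_automatic, fun hreg => ?_⟩
  obtain ⟨d, c, hc⟩ := exists_recurrence _ hreg
  simp only [complexity_eq] at hc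
  set b := 2 * d + 1 with hb
  set v := (diffs (T b)).ncard with hv
  have hvpos : 0 < v := (Set.ncard_pos (diffs_finite _)).2 (diffs_nonempty _)
  have hplat : ∀ a ≤ d, (diffs (5 ^ a * T b)).ncard = v := by
    intro a ha
    rw [plateau a b (by omega) (by omega)]
  have hsum : ∑ i ∈ Finset.range d, c i = 1 := by
    have h1 := hc (T b)
    rw [hplat d le_rfl] at h1
    have h2 : ∑ i ∈ Finset.range d, c i * ((diffs (5 ^ i * T b)).ncard : ℤ) =
        (∑ i ∈ Finset.range d, c i) * v := by
      rw [Finset.sum_mul]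
      apply Finset.sum_congr rfl
      intro i hi
      rw [hplat i (Finset.mem_range.1 hi).le]
    rw [h2] at h1
    have hv0 : (v : ℤ) ≠ 0 := by exact_mod_cast hvpos.ne'
    have : (v : ℤ) * 1 = v * (∑ i ∈ Finset.range d, c i) := by linarith
    exact (mul_left_cancel₀ hv0 this).symm
  have hall : ∀ a, (diffs (5 ^ a * T b)).ncard = v := by
    intro a
    induction a using Nat.strong_induction_on with
    | _ a ih =>
      by_cases ha : a ≤ d
      · exact hplat a ha
      · obtain ⟨k, rfl⟩ : ∃ k, a = d + k := ⟨a - d, by omega⟩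
        have h1 := hc (5 ^ k * T b)
        have h2 : ∑ i ∈ Finset.range d, c i * ((diffs (5 ^ i * (5 ^ k * T b))).ncard : ℤ) =
            (∑ i ∈ Finset.range d, c i) * v := by
          rw [Finset.sum_mul]
          apply Finset.sum_congr rfl
          intro i hi
          have hi' := Finset.mem_range.1 hi
          rw [← mul_assoc, ← pow_add, ih (i + k) (by omega)]
        rw [h2, hsum, one_mul, ← mul_assoc, ← pow_add] at h1
        exact_mod_cast h1
  have heq : ∀ a, diffs (T b) = diffs (5 ^ a * T b) := by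
    intro a
    exact Set.eq_of_subset_of_ncard_le (diffs_chain a _) (by rw [hall a]) (diffs_finite _)
  have hlow := low_ex (T b) b (by omega)
  rw [← heq] at hlow
  obtain ⟨i, hi⟩ := hlow
  have := diffs_bound i (T b)
  rw [← hi] at this
  have h3 := (abs_le.1 this).1
  have : (0 : ℤ) ≤ (T b : ℕ) := Int.natCast_nonneg _
  linarith

end Pool.Agent.Results.MP_293fea_co.NotRegular
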